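import Pool.Agent.Q294.SR.Stm

/-!
# Project SR (helper294), job WIND: winding of walks in a half plane
-/

set_option autoImplicit false

namespace Pool.Agent.Q153.SR

open H974 Pool.Agent.H477R3.Turn Complex Pool.Agent.Q294.SR

theorem sweep_half {q u : ℂ} {x : ℕ → ℂ} {i j : ℕ} (hij : i ≤ j)
    (h : ∀ k, i ≤ k → k ≤ j → 0 < ((x k - q) / u).re) :
    sweep q x i j = arg ((x j - q) / u) - arg ((x i - q) / u) := by
  induction j, hij using Nat.le_induction with
  | base => simp [sweep_self]
  | succ j hj ih =>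
    rw [sweep_succ q x hj, ih fun k hk hk' => h k hk (by omega)]
    unfold ang
    rw [arg_div_half (h j hj (by omega)) (h (j + 1) (by omega) le_rfl)]
    ring

theorem arg_I_mul' {z : ℂ} (hz : 0 < z.re) : arg (I * z) = arg z + Real.pi / 2 := by
  have hz0 : z ≠ 0 := by rintro rfl; simp at hz
  have h1 := abs_lt.1 (Complex.abs_arg_lt_pi_div_two_iff.2 (Or.inl hz))
  rw [(Complex.arg_mul_eq_add_arg_iff I_ne_zero hz0).2, Complex.arg_I]
  · ring
  · rw [Complex.arg_I]
    constructor <;> linarith [h1.1, h1.2, Real.pi_pos]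

theorem arg_negI_mul' {z : ℂ} (hz : 0 < z.re) : arg (-I * z) = arg z - Real.pi / 2 := by
  have hz0 : z ≠ 0 := by rintro rfl; simp at hz
  have h1 := abs_lt.1 (Complex.abs_arg_lt_pi_div_two_iff.2 (Or.inl hz))
  rw [(Complex.arg_mul_eq_add_arg_iff (neg_ne_zero.2 I_ne_zero) hz0).2, Complex.arg_neg_I]
  · ring
  · rw [Complex.arg_neg_I]
    constructor <;> linarith [h1.1, h1.2, Real.pi_pos]

theorem arg_diag {r : ℝ} (hr : 0 < r) : arg (⟨r, r⟩ : ℂ) = Real.pi / 4 ∧
    arg (⟨r, -r⟩ : ℂ) = - (Real.pi / 4) := by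
  have e1 : (⟨r, r⟩ : ℂ) = I * ⟨r, -r⟩ := by
    apply Complex.ext <;> simp
  have e2 : (⟨r, r⟩ : ℂ) = (starRingEnd ℂ) ⟨r, -r⟩ := by
    apply Complex.ext <;> simp
  have h1 := arg_I_mul' (z := (⟨r, -r⟩ : ℂ)) hr
  rw [← e1, e2, Complex.arg_conj, if_neg] at h1
  · have h2 : arg (⟨r, -r⟩ : ℂ) = - (Real.pi / 4) := by linarith
    refine ⟨?_, h2⟩
    rw [e1, arg_I_mul' (show (0 : ℝ) < (⟨r, -r⟩ : ℂ).re from hr), h2]
    ring
  · intro h3
    have h4 := abs_lt.1 (Complex.abs_arg_lt_pi_div_two_iff.2
      (Or.inl (show (0 : ℝ) < (⟨r, -r⟩ : ℂ).re from hr)))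
    linarith [h4.2, Real.pi_pos]

theorem pos_re (s : St) : 2 * (s.1.1 : ℝ) ≤ (pos s).re ∧ (pos s).re ≤ 2 * (s.1.1 : ℝ) + 1 := by
  obtain ⟨v, c⟩ := s
  cases c <;> simp [pos]

theorem pos_im (s : St) : 2 * (s.1.2 : ℝ) ≤ (pos s).im ∧ (pos s).im ≤ 2 * (s.1.2 : ℝ) + 1 := by
  obtain ⟨v, c⟩ := s
  cases c <;> simp [pos]

theorem divI_re (z : ℂ) : (z / I).re = z.im := by
  rw [Complex.div_I]; simp

theorem divnI_re (z : ℂ) : (z / (-I)).re = - z.im := by
  rw [div_neg, Complex.div_I]; simp

theorem wind (hT : S_TURN) : S_WIND := by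
  intro g e n d hW hg hn
  rcases Nat.eq_zero_or_pos n with rfl | hn0
  · refine ⟨fun x h _ => ?_, fun x y h _ => ?_, fun x y h _ => by simp, fun y h _ => ?_, fun y h _ => ?_⟩
    all_goals
      rw [hn] at h
      have h2 := congrArg Prod.snd h
      simp at h2
  -- notation
  have hTU := hT g e n hn0 hW
  set y : ℕ → ℂ := poly g n with hy
  have y0 : y 0 = pos (g 0) - (1 / 8 : ℝ) * dg (g 0).2 := by rw [hy]; simp [poly]
  have yY : y (n + 2) = ⟨-1 / 4, 2 * d + 3 / 4⟩ := by
    have : y (n + 2) = pos (g n) + (1 / 4 : ℝ) * dg (g n).2 := by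
      rw [hy]
      simp [poly]
    rw [this, hn]
    apply Complex.ext
    · simp [pos, dg]
      norm_num
    · simp [pos, dg]
      norm_num
      ring
  have yk : ∀ k, 1 ≤ k → k ≤ n + 1 → y k = pos (g (k - 1)) := by
    intro k h1 h2
    rw [hy]
    unfold poly
    rw [if_neg (by omega), if_neg (by omega)]
  have ylast : y (n + 1) = ⟨0, 2 * d + 1⟩ := by
    rw [yk (n + 1) (by omega) le_rfl, Nat.add_sub_cancel, hn]
    apply Complex.ext
    · simp [pos]
    · simp [pos]
  have y1 : y 1 = pos (g 0) := yk 1 le_rfl (by omega)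
  have hre : ∀ k, 1 ≤ k → k ≤ n + 1 → 0 ≤ (y k).re := by
    intro k h1 h2
    rw [yk k h1 h2]
    have h3 := (pos_re (g (k - 1))).1
    have h4 : (0 : ℝ) ≤ ((g (k - 1)).1.1 : ℝ) := by exact_mod_cast hg (k - 1) (by omega)
    linarith
  have hd0 : ∀ s : Cor, (1 / 8 : ℝ) * (dg s).re ≤ 1 / 8 := by
    intro s
    cases s <;> simp [dg]
    all_goals norm_num
  have hre0 : -1 / 8 ≤ (y 0).re := by
    have h3 := hre 1 le_rfl (by omega)
    rw [y1] at h3
    rw [y0, Complex.sub_re, Complex.re_ofReal_mul]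
    linarith [hd0 (g 0).2]
  set w : ℂ := y 0 - y (n + 2) with hw
  have hwre : 0 < w.re := by
    rw [hw, Complex.sub_re, yY]
    show 0 < (y 0).re - (-1 / 4)
    linarith
  -- the second sweep
  have hS2 : sweep (y (n + 2)) y 0 (n + 1) = Real.pi / 4 - arg w := by
    rw [sweep_half (u := 1) (Nat.zero_le _)]
    · rw [div_one, div_one]
      have h3 : y (n + 1) - y (n + 2) = ⟨1 / 4, 1 / 4⟩ := by
        rw [ylast, yY]
        apply Complex.ext
        · simp
          norm_num
        · simp
          norm_num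
      rw [h3, (arg_diag (by norm_num : (0 : ℝ) < 1 / 4)).1]
    · intro k _ hk
      rw [div_one, Complex.sub_re, yY]
      show 0 < (y k).re - (-1 / 4)
      rcases Nat.eq_zero_or_pos k with rfl | hk0
      · linarith
      · linarith [hre k hk0 hk]
  rw [hS2] at hTU
  have hpi := Real.pi_pos
  have fin : ∀ (m : ℤ), sweep (y 0) y 1 (n + 2) + (Real.pi / 4 - arg w) = Real.pi / 2 * m →
      ∑ j ∈ Finset.range n, e j = m := by
    intro m hm
    rw [hm] at hTU
    have h3 : ((∑ j ∈ Finset.range n, e j : ℤ) : ℝ) = m := by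
      have h4 : Real.pi / 2 ≠ 0 := by positivity
      exact mul_left_cancel₀ h4 hTU
    exact_mod_cast h3
  have hYw : y (n + 2) - y 0 = -w := by rw [hw]; ring
  refine ⟨fun x h hq => ?_, fun x yy h hq => ?_, fun x yy h hq => ?_, fun yy h hq => ?_, fun yy h hq => ?_⟩
  · -- lower side
    apply fin
    have e0 : y 0 = ⟨2 * x + 7 / 8, -1 / 8⟩ := by
      rw [y0, h]
      apply Complex.ext
      · simp [pos, dg]
        ring
      · simp [pos, dg]
        norm_num
    have hdd : (0 : ℝ) ≤ d := by
      have := hq n le_rfl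
      rw [hn] at this
      exact_mod_cast this
    rw [sweep_half (u := I) (by omega)]
    · have e1 : (y 1 - y 0) / I = ⟨1 / 8, -(1 / 8)⟩ := by
        rw [y1, e0, h, Complex.div_I]
        apply Complex.ext
        · simp [pos]
          norm_num
        · simp [pos]
          norm_num
      have e2 : -w / I = I * w := by rw [Complex.div_I]; ring
      rw [e1, hYw, e2, arg_I_mul' hwre, (arg_diag (by norm_num : (0 : ℝ) < 1 / 8)).2]
      push_cast
      ring
    · intro k hk1 hk2
      rw [divI_re, Complex.sub_im, e0]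
      show 0 < (y k).im - (-1 / 8)
      rcases Nat.lt_or_ge k (n + 2) with h3 | h3
      · rw [yk k hk1 (by omega)]
        have h4 := (pos_im (g (k - 1))).1
        have h5 : (0 : ℝ) ≤ ((g (k - 1)).1.2 : ℝ) := by exact_mod_cast hq (k - 1) (by omega)
        linarith
      · have : k = n + 2 := by omega
        rw [this, yY]
        show 0 < 2 * (d : ℝ) + 3 / 4 - (-1 / 8)
        linarith
  · -- right side
    apply fin
    have e0 : y 0 = ⟨2 * x + 9 / 8, 2 * yy + 7 / 8⟩ := by
      rw [y0, h]
      apply Complex.ext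
      · simp [pos, dg]
        ring
      · simp [pos, dg]
        ring
    have hdd : (0 : ℝ) ≤ x := by
      have := hg 0 (by omega)
      rw [h] at this
      exact_mod_cast this
    rw [sweep_half (u := -1) (by omega)]
    · have e1 : (y 1 - y 0) / (-1) = ⟨1 / 8, -(1 / 8)⟩ := by
        rw [y1, e0, h]
        apply Complex.ext
        · simp [pos, div_neg]
          norm_num
        · simp [pos, div_neg]
          norm_num
      have e2 : -w / (-1) = w := by simp [div_neg]
      rw [e1, hYw, e2, (arg_diag (by norm_num : (0 : ℝ) < 1 / 8)).2]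
      push_cast
      ring
    · intro k hk1 hk2
      rw [div_neg, div_one, Complex.neg_re, Complex.sub_re, e0]
      show 0 < -((y k).re - (2 * x + 9 / 8))
      rcases Nat.lt_or_ge k (n + 2) with h3 | h3
      · rw [yk k hk1 (by omega)]
        have h4 := (pos_re (g (k - 1))).2
        have h5 : ((g (k - 1)).1.1 : ℝ) ≤ x := by exact_mod_cast hq (k - 1) (by omega)
        linarith
      · have : k = n + 2 := by omega
        rw [this, yY]
        show 0 < -((-1 / 4 : ℝ) - (2 * x + 9 / 8))
        linarith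
  · -- upper side
    apply fin
    have e0 : y 0 = ⟨2 * x + 1 / 8, 2 * yy + 9 / 8⟩ := by
      rw [y0, h]
      apply Complex.ext
      · simp [pos, dg]
      · simp [pos, dg]
        ring
    have hdd : (d : ℝ) ≤ yy := by
      have := hq n le_rfl
      rw [hn] at this
      exact_mod_cast this
    rw [sweep_half (u := -I) (by omega)]
    · have e1 : (y 1 - y 0) / (-I) = ⟨1 / 8, -(1 / 8)⟩ := by
        rw [y1, e0, h, div_neg, Complex.div_I]
        apply Complex.ext
        · simp [pos]
          norm_num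
        · simp [pos]
      have e2 : -w / (-I) = -I * w := by rw [div_neg, Complex.div_I]; ring
      rw [e1, hYw, e2, arg_negI_mul' hwre, (arg_diag (by norm_num : (0 : ℝ) < 1 / 8)).2]
      push_cast
      ring
    · intro k hk1 hk2
      rw [divnI_re, Complex.sub_im, e0]
      show 0 < -((y k).im - (2 * yy + 9 / 8))
      rcases Nat.lt_or_ge k (n + 2) with h3 | h3
      · rw [yk k hk1 (by omega)]
        have h4 := (pos_im (g (k - 1))).2
        have h5 : ((g (k - 1)).1.2 : ℝ) ≤ yy := by exact_mod_cast hq (k - 1) (by omega)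
        linarith
      · have : k = n + 2 := by omega
        rw [this, yY]
        show 0 < -(2 * (d : ℝ) + 3 / 4 - (2 * yy + 9 / 8))
        linarith
  all_goals
    -- left side
    apply fin
    have e0 : y 0 = ⟨-1 / 8, 2 * yy + 1 / 8⟩ := by
      rw [y0, h]
      apply Complex.ext
      · simp [pos, dg]
        norm_num
      · simp [pos, dg]
    have hsw : sweep (y 0) y 1 (n + 2) = arg (y (n + 1) - y 0) + Real.pi / 4 +
        arg (-w / (y (n + 1) - y 0)) := by
      rw [sweep_succ _ _ (by omega : 1 ≤ n + 1), sweep_half (u := 1) (by omega)]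
      · have e1 : y 1 - y 0 = ⟨1 / 8, -(1 / 8)⟩ := by
          rw [y1, e0, h]
          apply Complex.ext
          · simp [pos]
            norm_num
          · simp [pos]
        rw [div_one, div_one, e1, (arg_diag (by norm_num : (0 : ℝ) < 1 / 8)).2]
        unfold ang
        rw [show n + 1 + 1 = n + 2 from rfl, hYw]
        ring
      · intro k hk1 hk2
        rw [div_one, Complex.sub_re, e0]
        show 0 < (y k).re - (-1 / 8)
        linarith [hre k hk1 hk2]
    have ha : y (n + 1) - y 0 = ⟨1 / 8, 2 * (d - yy) + 7 / 8⟩ := by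
      rw [ylast, e0]
      apply Complex.ext
      · simp
        norm_num
      · simp
        ring
    have hww : w = ⟨1 / 8, -(2 * (d - yy) + 5 / 8)⟩ := by
      rw [hw, yY, e0]
      apply Complex.ext
      · simp
        norm_num
      · simp
        ring
    have hare : 0 < (y (n + 1) - y 0).re := by
      rw [ha]
      norm_num
    rw [hsw]
  · -- below
    have hdy : (d : ℝ) + 1 ≤ yy := by exact_mod_cast hq
    rw [arg_div_half (u := -I)]
    · have e2 : -w / (-I) = -I * w := by rw [div_neg, Complex.div_I]; ring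
      have e3 : (y (n + 1) - y 0) / (-I) = I * (y (n + 1) - y 0) := by
        rw [div_neg, Complex.div_I]; ring
      rw [e2, e3, arg_negI_mul' hwre, arg_I_mul' hare]
      push_cast
      ring
    · rw [divnI_re, ha]
      show 0 < -(2 * ((d : ℝ) - yy) + 7 / 8)
      linarith
    · rw [divnI_re, hww]
      show 0 < -(-(-(2 * ((d : ℝ) - yy) + 5 / 8)))
      linarith
  · -- above
    have hdy : (yy : ℝ) ≤ d := by exact_mod_cast hq
    rw [arg_div_half (u := I)]
    · have e2 : -w / I = I * w := by rw [Complex.div_I]; ring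
      have e3 : (y (n + 1) - y 0) / I = -I * (y (n + 1) - y 0) := by
        rw [Complex.div_I]; ring
      rw [e2, e3, arg_I_mul' hwre, arg_negI_mul' hare]
      push_cast
      ring
    · rw [divI_re, ha]
      show 0 < 2 * ((d : ℝ) - yy) + 7 / 8
      linarith
    · rw [divI_re, hww]
      show 0 < -(-(2 * ((d : ℝ) - yy) + 5 / 8))
      linarith

end Pool.Agent.Q153.SR
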